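import Pool.Agent.V11212.HC.SS

/-!
# Vanishing of the late columns of the cubic dimension spectral sequence
-/

set_option autoImplicit false

namespace Pool.Agent.Results.MP_a4f165_gt.LateColumns

/-- Binary words of length `n`: the vertices of the hypercube graph `Q_n`. -/
abbrev Word (n : ℕ) : Type := Fin n → Bool

/-- `σ` is a simplex of `X^{n, r}`: a nonempty set of words pairwise at Hamming distance
at most `r`. -/
def IsSimplex {n : ℕ} (r : ℕ) (σ : Finset (Word n)) : Prop :=
  σ.Nonempty ∧ ∀ x ∈ σ, ∀ y ∈ σ, hammingDist x y ≤ r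

/-- The cubic dimension: the number of coordinates on which the vertices of `σ` do not all
agree. -/
def cubicDim {n : ℕ} (σ : Finset (Word n)) : ℕ :=
  (Finset.univ.filter (fun j : Fin n => ∃ x ∈ σ, ∃ y ∈ σ, x j ≠ y j)).card

/-- Chains with coefficients in `k`: a chain is the family of its coefficients. -/
abbrev Chain (n : ℕ) (k : Type) : Type := Finset (Word n) → k

/-- The simplicial boundary, for the total order of the vertices given by `o`.  A simplex with
vertices `v_0 < ... < v_d` is sent to the alternating sum of its faces (vertices have boundary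
`0`).  So the coefficient at a nonempty `τ` of the boundary of `c` is the sum over the vertices
`v ∉ τ` of `(-1) ^ i` times the coefficient of `c` at `τ ∪ {v}`, where `v` is the `i`-th vertex
(counting from `0`) of `τ ∪ {v}`. -/
def bdry {n : ℕ} {k : Type} [Field k] (o : Word n → ℕ) (c : Chain n k) : Chain n k :=
  fun τ => if τ = ∅ then 0 else
    ∑ v, if v ∈ τ then 0 else (-1) ^ (τ.filter (fun u => o u < o v)).card * c (insert v τ)

/-- `c` is a `d`-chain of `X^{n, r}_p`, the subcomplex of the simplices of `X^{n, r}` of cubic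
dimension at most `p`. -/
def InC {n : ℕ} {k : Type} [Field k] (r : ℕ) (p d : ℤ) (c : Chain n k) : Prop :=
  ∀ σ, c σ ≠ 0 → IsSimplex r σ ∧ (σ.card : ℤ) = d + 1 ∧ (cubicDim σ : ℤ) ≤ p

/-- `E^1_{p, q}(n, r) = 0`, that is, `H_{p + q} (C(X_p) / C(X_{p-1})) = 0`: every
`(p + q)`-chain `x` of `X_p` whose boundary is a chain of `X_{p-1}` differs from the boundary of
some `(p + q + 1)`-chain `y` of `X_p` by a chain of `X_{p-1}`. -/
def E1Vanishes (n r : ℕ) (k : Type) [Field k] (o : Word n → ℕ) (p q : ℤ) : Prop :=
  ∀ x : Chain n k, InC r p (p + q) x → InC r (p - 1) (p + q - 1) (bdry o x) →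
    ∃ y : Chain n k, InC r p (p + q + 1) y ∧
      InC r (p - 1) (p + q) (fun σ => x σ - bdry o y σ)

/-- The bound `s(r) = r * (r * (r + 2) * (2 * r + 1) ^ r + 1) ^ r`. -/
def s (r : ℕ) : ℕ := r * (r * (r + 2) * (2 * r + 1) ^ r + 1) ^ r

theorem s_eq (r : ℕ) : s r = V11212.HC.bnd r := by rw [s, V11212.HC.bnd, mul_assoc]

/-- **Main result.** For every field `k`, every `r ≥ 0` and every `n`, and for every total order
of the vertices (given by an injection `o` into `ℕ`), `E^1_{p, q}(n, r) = 0` for all integers
`p, q` with `p > s(r)`. -/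
theorem result (k : Type) [Field k] (r n : ℕ) (o : Word n → ℕ) (ho : Function.Injective o)
    (p q : ℤ) (hp : (s r : ℤ) < p) : E1Vanishes n r k o p q := by
  intro x hx hdx
  rw [s_eq] at hp
  obtain ⟨y, hy, hxy⟩ := V11212.HC.key (n := n) (r := r) (k := k) ho hp (x := x) hx hdx
  exact ⟨y, hy, hxy⟩

end Pool.Agent.Results.MP_a4f165_gt.LateColumns
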